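import Pool.Agent.TH673.Tau2.Comb

set_option autoImplicit false

namespace Pool.Agent.TH673.Tau2

open Finset Filter Topology

/-- Taylor remainder of the logarithm. -/
lemma log_rem (w : ℝ) (m : ℕ) :
    Tendsto (fun ε : ℝ => (Real.log (1 + ε * w) -
      ∑ i ∈ range m, (-1 : ℝ) ^ i * (ε * w) ^ (i + 1) / (i + 1)) / ε ^ m) (𝓝[>] 0) (𝓝 0) := by
  have hb : ∀ᶠ ε : ℝ in 𝓝[>] 0, ‖(Real.log (1 + ε * w) -
      ∑ i ∈ range m, (-1 : ℝ) ^ i * (ε * w) ^ (i + 1) / (i + 1)) / ε ^ m‖ ≤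
        2 * |w| ^ (m + 1) * ε := by
    have h1 : ∀ᶠ ε : ℝ in 𝓝[>] 0, |ε * w| < 1 / 2 := by
      have h2 : Tendsto (fun ε : ℝ => |ε * w|) (𝓝[>] 0) (𝓝 |0 * w|) :=
        ((continuous_id.mul continuous_const).abs.tendsto 0).mono_left nhdsWithin_le_nhds
      rw [zero_mul, abs_zero] at h2
      exact h2.eventually (gt_mem_nhds (by norm_num))
    have h3 : ∀ᶠ ε : ℝ in 𝓝[>] 0, 0 < ε := eventually_mem_nhdsWithin
    filter_upwards [h1, h3] with ε hε hε0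
    have h4 := Real.abs_log_sub_add_sum_range_le (x := -(ε * w)) (by
      rw [abs_neg]; linarith) m
    have h5 : (∑ i ∈ range m, (-(ε * w)) ^ (i + 1) / ((i : ℝ) + 1)) + Real.log (1 - -(ε * w)) =
        Real.log (1 + ε * w) -
          ∑ i ∈ range m, (-1 : ℝ) ^ i * (ε * w) ^ (i + 1) / (i + 1) := by
      rw [sub_neg_eq_add, add_comm, sub_eq_add_neg, ← Finset.sum_neg_distrib]
      congr 1
      apply Finset.sum_congr rfl
      intro i _
      rw [neg_pow, pow_succ (-1 : ℝ) i]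
      ring
    rw [h5, abs_neg] at h4
    rw [Real.norm_eq_abs, abs_div, abs_of_pos (pow_pos hε0 m), div_le_iff₀ (pow_pos hε0 m)]
    refine h4.trans ?_
    have h6 : 0 ≤ |ε * w| ^ (m + 1) := by positivity
    rw [div_le_iff₀ (by linarith)]
    have h7 : |ε * w| ^ (m + 1) = |w| ^ (m + 1) * ε * ε ^ m := by
      rw [abs_mul, mul_pow, abs_of_pos hε0]
      ring
    have h8 : 0 ≤ |w| ^ (m + 1) * ε * ε ^ m := by positivity
    have h9 : 2 * |w| ^ (m + 1) * ε * ε ^ m * (1 - |ε * w|) =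
        (|w| ^ (m + 1) * ε * ε ^ m) * (2 * (1 - |ε * w|)) := by ring
    rw [h7, h9]
    exact le_mul_of_one_le_right h8 (by linarith)
  have hlim : Tendsto (fun ε : ℝ => 2 * |w| ^ (m + 1) * ε) (𝓝[>] 0) (𝓝 0) := by
    have h2 : Tendsto (fun ε : ℝ => 2 * |w| ^ (m + 1) * ε) (𝓝[>] 0)
        (𝓝 (2 * |w| ^ (m + 1) * 0)) :=
      ((continuous_const.mul continuous_id).tendsto 0).mono_left nhdsWithin_le_nhds
    simpa using h2
  exact squeeze_zero_norm' hb hlim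

/-- The alternating sum of logarithms, normalised. -/
lemma alt_log {ι : Type*} [Fintype ι] {m : ℕ} (hm : 0 < m) (p : ι → Fin m → ℝ) :
    Tendsto (fun ε : ℝ => (∑ i, ∑ S : Finset (Fin m), (-1 : ℝ) ^ S.card *
      Real.log (1 + ε * ∑ j ∈ S, p i j)) / ε ^ m) (𝓝[>] 0)
      (𝓝 (-(nsur m / m * ∑ i, ∏ j, p i j))) := by
  obtain ⟨n, rfl⟩ : ∃ n, m = n + 1 := ⟨m - 1, by omega⟩
  -- remainder
  have h1 : Tendsto (fun ε : ℝ => ∑ i, ∑ S : Finset (Fin (n + 1)), (-1 : ℝ) ^ S.card *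
      ((Real.log (1 + ε * ∑ j ∈ S, p i j) -
        ∑ r ∈ range (n + 1), (-1 : ℝ) ^ r * (ε * ∑ j ∈ S, p i j) ^ (r + 1) / (r + 1)) /
          ε ^ (n + 1))) (𝓝[>] 0) (𝓝 0) := by
    have h2 : (0 : ℝ) = ∑ i : ι, ∑ S : Finset (Fin (n + 1)), (-1 : ℝ) ^ S.card * 0 := by simp
    conv_rhs => rw [h2]
    apply tendsto_finsetSum
    intro i _
    apply tendsto_finsetSum
    intro S _
    exact (log_rem _ _).const_mul _
  have h3 : ∀ᶠ ε : ℝ in 𝓝[>] 0, 0 < ε := eventually_mem_nhdsWithin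
  have h4 : Tendsto (fun ε : ℝ => (∑ i, ∑ S : Finset (Fin (n + 1)), (-1 : ℝ) ^ S.card *
      ((Real.log (1 + ε * ∑ j ∈ S, p i j) -
        ∑ r ∈ range (n + 1), (-1 : ℝ) ^ r * (ε * ∑ j ∈ S, p i j) ^ (r + 1) / (r + 1)) /
          ε ^ (n + 1))) + (-(nsur (n + 1) / ((n + 1 : ℕ) : ℝ) * ∑ i, ∏ j, p i j))) (𝓝[>] 0)
      (𝓝 (0 + (-(nsur (n + 1) / ((n + 1 : ℕ) : ℝ) * ∑ i, ∏ j, p i j)))) :=
    h1.add tendsto_const_nhds
  rw [zero_add] at h4
  refine h4.congr' ?_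
  filter_upwards [h3] with ε hε
  have hεn : ε ^ (n + 1) ≠ 0 := (pow_pos hε _).ne'
  have h5 : ∀ i, ∑ S : Finset (Fin (n + 1)), (-1 : ℝ) ^ S.card *
      (∑ r ∈ range (n + 1), (-1 : ℝ) ^ r * (ε * ∑ j ∈ S, p i j) ^ (r + 1) / (r + 1)) =
      ε ^ (n + 1) * (-(nsur (n + 1) / ((n + 1 : ℕ) : ℝ) * ∏ j, p i j)) := by
    intro i
    have h6 : ∀ S : Finset (Fin (n + 1)), (-1 : ℝ) ^ S.card *
      (∑ r ∈ range (n + 1), (-1 : ℝ) ^ r * (ε * ∑ j ∈ S, p i j) ^ (r + 1) / (r + 1)) =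
        ∑ r ∈ range (n + 1), (-1 : ℝ) ^ r * ε ^ (r + 1) / (r + 1) *
          ((-1 : ℝ) ^ S.card * (∑ j ∈ S, p i j) ^ (r + 1)) := by
      intro S
      rw [Finset.mul_sum]
      apply Finset.sum_congr rfl
      intro r _
      rw [mul_pow]
      ring
    simp only [h6]
    rw [Finset.sum_comm]
    have h7 : ∀ r ∈ range (n + 1), ∑ S : Finset (Fin (n + 1)),
        (-1 : ℝ) ^ r * ε ^ (r + 1) / (r + 1) *
          ((-1 : ℝ) ^ S.card * (∑ j ∈ S, p i j) ^ (r + 1)) =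
        if r = n then ε ^ (n + 1) * (-(nsur (n + 1) / ((n + 1 : ℕ) : ℝ) * ∏ j, p i j)) else 0 := by
      intro r hr
      rw [← Finset.mul_sum]
      split_ifs with hrn
      · subst hrn
        rw [alt_pow_eq]
        have h8 : ((-1 : ℝ) ^ r) * (-1) ^ (r + 1) = -1 := by
          rw [pow_succ, ← mul_assoc, ← mul_pow]
          simp
        have h9 : (((r + 1 : ℕ) : ℝ)) ≠ 0 := by positivity
        push_cast at h9 ⊢
        calc _ = (((-1 : ℝ) ^ r) * (-1) ^ (r + 1)) *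
              (ε ^ (r + 1) * (nsur (r + 1) / ((r : ℝ) + 1) * ∏ j, p i j)) := by ring
          _ = _ := by rw [h8]; ring
      · rw [alt_pow_lt _ _ (by have := mem_range.mp hr; omega), mul_zero]
    rw [Finset.sum_congr rfl h7, Finset.sum_ite_eq' (range (n + 1)) n, if_pos (by simp)]
  have h10 : ∑ i, ∑ S : Finset (Fin (n + 1)), (-1 : ℝ) ^ S.card *
      ((Real.log (1 + ε * ∑ j ∈ S, p i j) -
        ∑ r ∈ range (n + 1), (-1 : ℝ) ^ r * (ε * ∑ j ∈ S, p i j) ^ (r + 1) / (r + 1)) /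
          ε ^ (n + 1)) =
      (∑ i, ∑ S : Finset (Fin (n + 1)), (-1 : ℝ) ^ S.card *
        Real.log (1 + ε * ∑ j ∈ S, p i j)) / ε ^ (n + 1) -
      (∑ i, ∑ S : Finset (Fin (n + 1)), (-1 : ℝ) ^ S.card *
        ∑ r ∈ range (n + 1), (-1 : ℝ) ^ r * (ε * ∑ j ∈ S, p i j) ^ (r + 1) / (r + 1)) /
          ε ^ (n + 1) := by
    rw [← sub_div, ← Finset.sum_sub_distrib, Finset.sum_div]
    apply Finset.sum_congr rfl
    intro i _
    rw [← Finset.sum_sub_distrib, Finset.sum_div]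
    apply Finset.sum_congr rfl
    intro S _
    ring
  rw [h10]
  simp only [h5]
  rw [← Finset.mul_sum, Finset.sum_neg_distrib, ← Finset.mul_sum, mul_div_cancel_left₀ _ hεn]
  ring

end Pool.Agent.TH673.Tau2
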