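import Mathlib

set_option autoImplicit false

namespace Pool.Agent.TH673.Tau2

open Finset Filter Topology

/-- Alternating sum over the subsets containing a given set. -/
lemma alt_super {m : ℕ} (T : Finset (Fin m)) :
    ∑ S : Finset (Fin m), (if T ⊆ S then (-1 : ℝ) ^ S.card else 0) =
      if T = univ then (-1) ^ m else 0 := by
  classical
  split_ifs with h
  · subst h
    rw [Finset.sum_eq_single univ]
    · simp
    · intro S _ hS
      rw [if_neg]
      intro h
      exact hS (Finset.univ_subset_iff.mp h)
    · intro h
      exact absurd (mem_univ _) h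
  · obtain ⟨j, hj⟩ : ∃ j, j ∉ T := by
      by_contra hcon
      push Not at hcon
      exact h (eq_univ_iff_forall.mpr hcon)
    apply Finset.sum_ninvolution (fun S => if j ∈ S then S.erase j else insert j S)
    · intro S
      by_cases hS : j ∈ S
      · rw [if_pos hS]
        by_cases hT : T ⊆ S
        · have hT' : T ⊆ S.erase j := by
            intro i hi
            rw [mem_erase]
            exact ⟨fun h => hj (h ▸ hi), hT hi⟩
          rw [if_pos hT, if_pos hT']
          have h1 : S.card = (S.erase j).card + 1 := (card_erase_add_one hS).symm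
          rw [h1, pow_succ]
          ring
        · have hT' : ¬ T ⊆ S.erase j := fun h => hT (h.trans (erase_subset _ _))
          rw [if_neg hT, if_neg hT', add_zero]
      · rw [if_neg hS]
        by_cases hT : T ⊆ S
        · have hT' : T ⊆ insert j S := hT.trans (subset_insert _ _)
          rw [if_pos hT, if_pos hT', card_insert_of_notMem hS, pow_succ]
          ring
        · have hT' : ¬ T ⊆ insert j S := by
            intro h
            apply hT
            intro i hi
            rcases mem_insert.mp (h hi) with h' | h'
            · exact absurd (h' ▸ hi) hj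
            · exact h'
          rw [if_neg hT, if_neg hT', add_zero]
    · intro S hne hS
      by_cases hjS : j ∈ S
      · rw [if_pos hjS] at hS
        rw [← hS] at hjS
        exact (notMem_erase j S) hjS
      · rw [if_neg hjS] at hS
        rw [← hS] at hjS
        exact hjS (mem_insert_self j S)
    · intro S
      exact mem_univ _
    · intro S
      by_cases hjS : j ∈ S
      · rw [if_pos hjS, if_neg (notMem_erase j S), insert_erase hjS]
      · rw [if_neg hjS, if_pos (mem_insert_self j S), erase_insert hjS]

/-- The alternating power sums. -/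
lemma alt_pow {m : ℕ} (p : Fin m → ℝ) (r : ℕ) :
    ∑ S : Finset (Fin m), (-1 : ℝ) ^ S.card * (∑ j ∈ S, p j) ^ r =
      ∑ g : Fin r → Fin m, (if (univ.image g) = univ then (-1) ^ m else 0) * ∏ a, p (g a) := by
  classical
  have h1 : ∀ S : Finset (Fin m), (∑ j ∈ S, p j) ^ r =
      ∑ g : Fin r → Fin m, if univ.image g ⊆ S then ∏ a, p (g a) else 0 := by
    intro S
    have h2 : (∑ j ∈ S, p j) ^ r = ∏ _a : Fin r, ∑ j ∈ S, p j := by simp
    rw [h2, Finset.prod_univ_sum, ← Finset.sum_filter]
    apply Finset.sum_congr
    · ext g
      simp only [Fintype.mem_piFinset, mem_filter, mem_univ, true_and]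
      constructor
      · intro h i hi
        obtain ⟨a, _, rfl⟩ := mem_image.mp hi
        exact h a
      · intro h a
        exact h (mem_image_of_mem g (mem_univ a))
    · intro g _
      rfl
  have h3 : ∀ S : Finset (Fin m), (-1 : ℝ) ^ S.card * (∑ j ∈ S, p j) ^ r =
      ∑ g : Fin r → Fin m, (if univ.image g ⊆ S then (-1 : ℝ) ^ S.card else 0) *
        ∏ a, p (g a) := by
    intro S
    rw [h1, Finset.mul_sum]
    apply Finset.sum_congr rfl
    intro g _
    split_ifs <;> ring
  simp only [h3]
  rw [Finset.sum_comm]
  apply Finset.sum_congr rfl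
  intro g _
  rw [← Finset.sum_mul, alt_super]

lemma alt_pow_lt {m : ℕ} (p : Fin m → ℝ) (r : ℕ) (hr : r < m) :
    ∑ S : Finset (Fin m), (-1 : ℝ) ^ S.card * (∑ j ∈ S, p j) ^ r = 0 := by
  classical
  rw [alt_pow]
  apply Finset.sum_eq_zero
  intro g _
  rw [if_neg, zero_mul]
  intro h
  have h1 : (univ.image g).card ≤ r := by
    refine Finset.card_image_le.trans ?_
    simp
  rw [h] at h1
  simp at h1
  omega

/-- The number of surjections (equivalently, permutations). -/
noncomputable def nsur (m : ℕ) : ℝ :=
  ∑ g : Fin m → Fin m, (if (univ.image g) = univ then 1 else 0 : ℝ)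

lemma nsur_pos (m : ℕ) : 0 < nsur m := by
  classical
  unfold nsur
  apply Finset.sum_pos'
  · intro g _
    split_ifs <;> norm_num
  · refine ⟨id, mem_univ _, ?_⟩
    rw [if_pos (by simp)]
    norm_num

lemma alt_pow_eq {m : ℕ} (p : Fin m → ℝ) :
    ∑ S : Finset (Fin m), (-1 : ℝ) ^ S.card * (∑ j ∈ S, p j) ^ m =
      (-1) ^ m * nsur m * ∏ j, p j := by
  classical
  rw [alt_pow]
  unfold nsur
  rw [Finset.mul_sum, Finset.sum_mul]
  apply Finset.sum_congr rfl
  intro g _
  by_cases h : univ.image g = univ
  · rw [if_pos h, if_pos h]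
    have hs : Function.Surjective g := by
      intro i
      have : i ∈ univ.image g := by rw [h]; exact mem_univ _
      obtain ⟨a, _, ha⟩ := mem_image.mp this
      exact ⟨a, ha⟩
    have hb : Function.Bijective g := ⟨Finite.injective_iff_surjective.mpr hs, hs⟩
    have h2 : ∏ a, p (g a) = ∏ j, p j :=
      Fintype.prod_bijective g hb _ _ (fun _ => rfl)
    rw [h2]
    ring
  · rw [if_neg h, if_neg h]
    ring

end Pool.Agent.TH673.Tau2
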