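import Mathlib

set_option autoImplicit false

namespace Pool.Agent.TH673.Tau2

open Polynomial Finset Filter Topology

/-- Adding a suitable constant turns all distinct real roots into strict sign changes. -/
lemma exists_pert (f : ℝ[X]) (hf : f ≠ 0) :
    ∃ (κ : Type) (_ : Fintype κ) (_ : DecidableEq κ) (a c : κ → ℝ) (s : ℝ),
      f.roots.toFinset.card ≤ Fintype.card κ ∧ (∀ i, a i < c i) ∧
      (∀ i j, i ≠ j → c i ≤ a j ∨ c j ≤ a i) ∧
      (∀ i, (f + C s).eval (a i) * (f + C s).eval (c i) < 0) ∧ f + C s ≠ 0 := by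
  classical
  set T := f.roots.toFinset with hT
  have hroot : ∀ x, x ∈ T ↔ f.eval x = 0 := by
    intro x
    rw [hT, Multiset.mem_toFinset, mem_roots hf]
    rfl
  -- the gap
  have hη : ∃ η : ℝ, 0 < η ∧ ∀ x ∈ T, ∀ y ∈ T, x < y → x + 2 * η < y := by
    have h1 : ∀ᶠ η : ℝ in 𝓝[>] 0, ∀ x ∈ T, ∀ y ∈ T, x < y → x + 2 * η < y := by
      rw [eventually_all_finset]
      intro x _
      rw [eventually_all_finset]
      intro y _
      by_cases hxy : x < y
      · have h2 : Tendsto (fun η : ℝ => x + 2 * η) (𝓝[>] 0) (𝓝 (x + 2 * 0)) :=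
          ((continuous_const.add (continuous_const.mul continuous_id)).tendsto 0).mono_left
            nhdsWithin_le_nhds
        rw [mul_zero, add_zero] at h2
        filter_upwards [h2.eventually (gt_mem_nhds hxy)] with η hη _
        exact hη
      · exact Eventually.of_forall fun η h => absurd h hxy
    have h3 : ∀ᶠ η : ℝ in 𝓝[>] 0, 0 < η := eventually_mem_nhdsWithin
    obtain ⟨η, h4, h5⟩ := (h3.and h1).exists
    exact ⟨η, h4, h5⟩
  obtain ⟨η, hη0, hη1⟩ := hη
  let out : T × Bool → ℝ := fun p => if p.2 then p.1.1 + η else p.1.1 - η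
  have hout : ∀ p, f.eval (out p) ≠ 0 := by
    rintro ⟨⟨x, hx⟩, b⟩ h
    have h1 := (hroot _).mpr h
    cases b
    · simp only [out, Bool.false_eq_true, if_false] at h1
      have := hη1 _ h1 _ hx (by linarith)
      linarith
    · simp only [out, if_true] at h1
      have := hη1 _ hx _ h1 (by linarith)
      linarith
  have hδ : ∃ δ : ℝ, 0 < δ ∧ ∀ p : T × Bool, δ < |f.eval (out p)| := by
    have h1 : ∀ᶠ δ : ℝ in 𝓝[>] 0, ∀ p : T × Bool, δ < |f.eval (out p)| := by
      rw [eventually_all]
      intro p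
      have h2 : 0 < |f.eval (out p)| := abs_pos.mpr (hout p)
      exact (nhdsWithin_le_nhds : 𝓝[>] (0 : ℝ) ≤ 𝓝 0) (gt_mem_nhds h2)
    have h3 : ∀ᶠ δ : ℝ in 𝓝[>] 0, 0 < δ := eventually_mem_nhdsWithin
    obtain ⟨δ, h4, h5⟩ := (h3.and h1).exists
    exact ⟨δ, h4, h5⟩
  obtain ⟨δ, hδ0, hδ1⟩ := hδ
  have hcard : Fintype.card {p : T × Bool // f.eval (out p) < 0} +
      Fintype.card {p : T × Bool // ¬ f.eval (out p) < 0} = 2 * T.card := by
    rw [Fintype.card_subtype_compl, Nat.add_sub_cancel' (Fintype.card_subtype_le _)]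
    simp [mul_comm]
  let a : T × Bool → ℝ := fun p => if p.2 then p.1.1 else p.1.1 - η
  let c : T × Bool → ℝ := fun p => if p.2 then p.1.1 + η else p.1.1
  have hac : ∀ p, a p < c p := by
    rintro ⟨⟨x, hx⟩, b⟩
    cases b <;> simp [a, c, hη0]
  have ha : ∀ p : T × Bool, p.1.1 - η ≤ a p := by
    rintro ⟨⟨x, hx⟩, b⟩
    cases b <;> simp [a, hη0.le]
  have hc : ∀ p : T × Bool, c p ≤ p.1.1 + η := by
    rintro ⟨⟨x, hx⟩, b⟩
    cases b <;> simp [c, hη0.le]
  have hdis : ∀ p q : T × Bool, p ≠ q → c p ≤ a q ∨ c q ≤ a p := by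
    intro p q hpq
    rcases lt_trichotomy p.1.1 q.1.1 with h | h | h
    · left
      have h1 := hη1 _ p.1.2 _ q.1.2 h
      have h2 := ha q
      have h3 := hc p
      linarith
    · have hb : p.2 ≠ q.2 := by
        intro hb
        apply hpq
        exact Prod.ext (Subtype.ext h) hb
      cases hp : p.2
      · have hq : q.2 = true := by
          cases hq : q.2
          · exact absurd (hp.trans hq.symm) hb
          · rfl
        left
        simp [a, c, hp, hq, h]
      · have hq : q.2 = false := by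
          cases hq : q.2
          · rfl
          · exact absurd (hp.trans hq.symm) hb
        right
        simp [a, c, hp, hq, h]
    · right
      have h1 := hη1 _ q.1.2 _ p.1.2 h
      have h2 := ha p
      have h3 := hc q
      linarith
  have hmul : ∀ (s : ℝ) (p : T × Bool), (f + C s).eval (a p) * (f + C s).eval (c p) =
      s * (f.eval (out p) + s) := by
    rintro s ⟨⟨x, hx⟩, b⟩
    have h0 : f.eval x = 0 := (hroot x).mp hx
    cases b
    · simp only [a, c, out, Bool.false_eq_true, if_false, eval_add, eval_C, h0, zero_add]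
      ring
    · simp only [a, c, out, if_true, eval_add, eval_C, h0, zero_add]
  have hnz : ∀ {κ : Type} [Fintype κ] (a c : κ → ℝ) (s : ℝ), T.card ≤ Fintype.card κ →
      T.card ≠ 0 → (∀ i, (f + C s).eval (a i) * (f + C s).eval (c i) < 0) → f + C s ≠ 0 := by
    intro κ _ a c s h1 h2 h3 h0
    have h4 : 0 < Fintype.card κ := by omega
    obtain ⟨i⟩ := Fintype.card_pos_iff.mp h4
    have := h3 i
    rw [h0, eval_zero, zero_mul] at this
    exact lt_irrefl _ this
  by_cases hT0 : T.card = 0
  · refine ⟨Empty, inferInstance, inferInstance, fun i => i.elim, fun i => i.elim, 0, ?_, ?_, ?_,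
      ?_, ?_⟩
    · rw [hT0]
      exact Nat.zero_le _
    · rintro ⟨⟩
    · rintro ⟨⟩
    · rintro ⟨⟩
    · rw [C_0, add_zero]
      exact hf
  by_cases hbig : T.card ≤ Fintype.card {p : T × Bool // f.eval (out p) < 0}
  · have hall : ∀ p : {p : T × Bool // f.eval (out p) < 0},
        (f + C δ).eval (a p.1) * (f + C δ).eval (c p.1) < 0 := by
      rintro ⟨p, hp⟩
      simp only
      rw [hmul]
      have h1 := hδ1 p
      rw [abs_of_neg hp] at h1
      exact mul_neg_of_pos_of_neg hδ0 (by linarith)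
    exact ⟨{p : T × Bool // f.eval (out p) < 0}, inferInstance, inferInstance,
      fun p => a p.1, fun p => c p.1, δ, hbig, fun p => hac p.1,
      fun p q hpq => hdis p.1 q.1 (fun h => hpq (Subtype.ext h)), hall,
      hnz _ _ _ hbig hT0 hall⟩
  · have hbig' : T.card ≤ Fintype.card {p : T × Bool // ¬ f.eval (out p) < 0} := by omega
    have hall : ∀ p : {p : T × Bool // ¬ f.eval (out p) < 0},
        (f + C (-δ)).eval (a p.1) * (f + C (-δ)).eval (c p.1) < 0 := by
      rintro ⟨p, hp⟩
      simp only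
      rw [hmul]
      have h0 : 0 < f.eval (out p) := lt_of_le_of_ne (not_lt.mp hp) (hout p).symm
      have h1 := hδ1 p
      rw [abs_of_pos h0] at h1
      exact mul_neg_of_neg_of_pos (by linarith) (by linarith)
    exact ⟨{p : T × Bool // ¬ f.eval (out p) < 0}, inferInstance, inferInstance,
      fun p => a p.1, fun p => c p.1, -δ, hbig', fun p => hac p.1,
      fun p q hpq => hdis p.1 q.1 (fun h => hpq (Subtype.ext h)), hall,
      hnz _ _ _ hbig' hT0 hall⟩

end Pool.Agent.TH673.Tau2
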