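import Pool.Agent.TH673.Tau2.Asym
import Pool.Agent.TH673.Tau2.Pert
import Pool.Agent.H746R4.Tau.Main

set_option autoImplicit false

namespace Pool.Agent.TH673.Tau2

open Polynomial Finset Filter Topology

/-- The sign of the difference of the two products. -/
lemma sign_key {ι : Type*} [Fintype ι] {m : ℕ} (hm : 0 < m) (p : ι → Fin m → ℝ)
    (h : ∑ i, ∏ j, p i j ≠ 0) :
    ∀ᶠ ε : ℝ in 𝓝[>] 0, 0 < (∑ i, ∏ j, p i j) *
      ((∏ i, ∏ S : {S : Finset (Fin m) // ¬ Even S.card}, (1 + ε * ∑ j ∈ S.1, p i j)) -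
        ∏ i, ∏ S : {S : Finset (Fin m) // Even S.card}, (1 + ε * ∑ j ∈ S.1, p i j)) := by
  classical
  have h1 : ∀ᶠ ε : ℝ in 𝓝[>] 0, ∀ i, ∀ S : Finset (Fin m), 0 < 1 + ε * ∑ j ∈ S, p i j := by
    rw [eventually_all]
    intro i
    rw [eventually_all]
    intro S
    have h2 : Tendsto (fun ε : ℝ => 1 + ε * ∑ j ∈ S, p i j) (𝓝[>] 0)
        (𝓝 (1 + 0 * ∑ j ∈ S, p i j)) :=
      ((continuous_const.add (continuous_id.mul continuous_const)).tendsto 0).mono_left
        nhdsWithin_le_nhds
    rw [zero_mul, add_zero] at h2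
    exact h2.eventually (lt_mem_nhds (by norm_num))
  have h3 : ∀ᶠ ε : ℝ in 𝓝[>] 0, 0 < ε := eventually_mem_nhdsWithin
  have h4 := (alt_log hm p).mul_const (∑ i, ∏ j, p i j)
  have hc : 0 < nsur m / m := div_pos (nsur_pos m) (by exact_mod_cast hm)
  have h5 : -(nsur m / m * ∑ i, ∏ j, p i j) * (∑ i, ∏ j, p i j) < 0 := by
    have : 0 < (∑ i, ∏ j, p i j) * (∑ i, ∏ j, p i j) := by
      rcases lt_or_gt_of_ne h with h' | h'
      · exact mul_pos_of_neg_of_neg h' h'
      · exact mul_pos h' h'
    have h6 := mul_pos hc this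
    linarith
  have h6 := h4.eventually (gt_mem_nhds h5)
  filter_upwards [h1, h3, h6] with ε hpos hε hL
  set A := ∏ i, ∏ S : {S : Finset (Fin m) // Even S.card}, (1 + ε * ∑ j ∈ S.1, p i j) with hA
  set B := ∏ i, ∏ S : {S : Finset (Fin m) // ¬ Even S.card}, (1 + ε * ∑ j ∈ S.1, p i j) with hB
  have hA0 : 0 < A := Finset.prod_pos fun i _ => Finset.prod_pos fun S _ => hpos i S.1
  have hB0 : 0 < B := Finset.prod_pos fun i _ => Finset.prod_pos fun S _ => hpos i S.1
  have hlog : ∑ i, ∑ S : Finset (Fin m), (-1 : ℝ) ^ S.card *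
      Real.log (1 + ε * ∑ j ∈ S, p i j) = Real.log A - Real.log B := by
    rw [hA, hB, Real.log_prod (fun i _ => (Finset.prod_pos fun S _ => hpos i S.1).ne'),
      Real.log_prod (fun i _ => (Finset.prod_pos fun S _ => hpos i S.1).ne'),
      ← Finset.sum_sub_distrib]
    apply Finset.sum_congr rfl
    intro i _
    rw [Real.log_prod (fun S _ => (hpos i S.1).ne'), Real.log_prod (fun S _ => (hpos i S.1).ne')]
    rw [← Fintype.sum_subtype_add_sum_subtype (fun S : Finset (Fin m) => Even S.card)]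
    rw [sub_eq_add_neg, ← Finset.sum_neg_distrib]
    congr 1
    · apply Finset.sum_congr rfl
      intro S _
      rw [S.2.neg_one_pow, one_mul]
    · apply Finset.sum_congr rfl
      intro S _
      rw [(Nat.not_even_iff_odd.mp S.2).neg_one_pow, neg_one_mul]
  rw [hlog] at hL
  have hL2 : (Real.log A - Real.log B) * (∑ i, ∏ j, p i j) < 0 := by
    have h7 : (Real.log A - Real.log B) * (∑ i, ∏ j, p i j) =
        ε ^ m * ((Real.log A - Real.log B) / ε ^ m * (∑ i, ∏ j, p i j)) := by
      have : ε ^ m ≠ 0 := (pow_pos hε m).ne'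
      field_simp
    rw [h7]
    exact mul_neg_of_pos_of_neg (pow_pos hε m) hL
  rcases lt_or_gt_of_ne h with h' | h'
  · have h8 : 0 < Real.log A - Real.log B := by
      by_contra hcon
      push Not at hcon
      have := mul_nonneg_of_nonpos_of_nonpos hcon h'.le
      linarith
    have h9 : B < A := (Real.log_lt_log_iff hB0 hA0).mp (by linarith)
    exact mul_pos_of_neg_of_neg h' (by linarith)
  · have h8 : Real.log A - Real.log B < 0 := by
      by_contra hcon
      push Not at hcon
      have := mul_nonneg hcon h'.le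
      linarith
    have h9 : A < B := (Real.log_lt_log_iff hA0 hB0).mp (by linarith)
    exact mul_pos h' (by linarith)

lemma card_even (m : ℕ) : Fintype.card {S : Finset (Fin (m + 1)) // Even S.card} = 2 ^ m ∧
    Fintype.card {S : Finset (Fin (m + 1)) // ¬ Even S.card} = 2 ^ m := by
  classical
  have h1 := alt_super (∅ : Finset (Fin (m + 1)))
  rw [if_neg (by
    intro h
    have := congrArg Finset.card h
    simp at this)] at h1
  simp only [Finset.empty_subset, if_true] at h1
  rw [← Fintype.sum_subtype_add_sum_subtype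
    (fun S : Finset (Fin (m + 1)) => Even S.card)] at h1
  have h2 : ∑ S : {S : Finset (Fin (m + 1)) // Even S.card}, (-1 : ℝ) ^ S.1.card =
      (Fintype.card {S : Finset (Fin (m + 1)) // Even S.card} : ℝ) := by
    rw [Finset.sum_congr rfl (fun S _ => S.2.neg_one_pow)]
    simp
  have h3 : ∑ S : {S : Finset (Fin (m + 1)) // ¬ Even S.card}, (-1 : ℝ) ^ S.1.card =
      -(Fintype.card {S : Finset (Fin (m + 1)) // ¬ Even S.card} : ℝ) := by
    rw [Finset.sum_congr rfl (fun S _ => (Nat.not_even_iff_odd.mp S.2).neg_one_pow)]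
    simp
  rw [h2, h3] at h1
  have h4 : Fintype.card {S : Finset (Fin (m + 1)) // Even S.card} =
      Fintype.card {S : Finset (Fin (m + 1)) // ¬ Even S.card} := by
    have : (Fintype.card {S : Finset (Fin (m + 1)) // Even S.card} : ℝ) =
      (Fintype.card {S : Finset (Fin (m + 1)) // ¬ Even S.card} : ℝ) := by linarith
    exact_mod_cast this
  have h5 : Fintype.card {S : Finset (Fin (m + 1)) // Even S.card} +
      Fintype.card {S : Finset (Fin (m + 1)) // ¬ Even S.card} = 2 ^ (m + 1) := by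
    rw [Fintype.card_subtype_compl, Nat.add_sub_cancel' (Fintype.card_subtype_le _)]
    simp
  rw [pow_succ] at h5
  omega

lemma card_support_C_le_one' (r : ℝ) : (C r : ℝ[X]).support.card ≤ 1 :=
  (Finset.card_le_card (support_C_subset r)).trans (by simp)

lemma card_support_sum {ι : Type*} (S : Finset ι) (q : ι → ℝ[X]) :
    (∑ j ∈ S, q j).support.card ≤ ∑ j ∈ S, (q j).support.card := by
  classical
  induction S using Finset.induction_on with
  | empty => simp
  | insert a S ha ih =>
    rw [Finset.sum_insert ha, Finset.sum_insert ha]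
    calc _ ≤ ((q a).support ∪ (∑ j ∈ S, q j).support).card := Finset.card_le_card support_add
      _ ≤ _ := (Finset.card_union_le _ _).trans (by omega)

lemma card_support_factor {m : ℕ} (t : ℕ) (q : Fin m → ℝ[X]) (hq : ∀ j, (q j).support.card ≤ t)
    (S : Finset (Fin m)) (ε : ℝ) :
    (1 + C ε * ∑ j ∈ S, q j).support.card ≤ m * t + 1 := by
  classical
  have h1 : (1 : ℝ[X]).support.card ≤ 1 := by
    rw [← C_1]
    exact card_support_C_le_one' _
  have h2 : (C ε * ∑ j ∈ S, q j).support.card ≤ m * t := by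
    calc _ ≤ (∑ j ∈ S, q j).support.card := by
            apply Finset.card_le_card
            intro n hn
            rw [mem_support_iff, coeff_C_mul] at hn
            rw [mem_support_iff]
            exact right_ne_zero_of_mul hn
      _ ≤ ∑ j ∈ S, (q j).support.card := card_support_sum S q
      _ ≤ ∑ j ∈ S, t := Finset.sum_le_sum fun j _ => hq j
      _ ≤ m * t := by
            rw [Finset.sum_const, smul_eq_mul]
            apply Nat.mul_le_mul_right
            simpa using Finset.card_le_univ S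
  calc _ ≤ ((1 : ℝ[X]).support ∪ (C ε * ∑ j ∈ S, q j).support).card :=
          Finset.card_le_card support_add
    _ ≤ _ := (Finset.card_union_le _ _).trans (by omega)

/-- **Reduction to two products.** -/
theorem transfer (K m t : ℕ) (F : Fin K → Fin (m + 1) → ℝ[X])
    (hF : ∀ i j, (F i j).support.card ≤ t) (hne : ∑ i, ∏ j, F i j ≠ 0) :
    ∃ G : Fin 2 → Fin (2 ^ m * (K + 1)) → ℝ[X],
      (∀ i j, (G i j).support.card ≤ (m + 1) * t + 1) ∧ (∑ i, ∏ j, G i j) ≠ 0 ∧
      (∑ i, ∏ j, F i j).roots.toFinset.card ≤ (∑ i, ∏ j, G i j).roots.toFinset.card := by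
  classical
  have ht : 1 ≤ t := by
    by_contra hcon
    have ht0 : t = 0 := by omega
    apply hne
    apply Finset.sum_eq_zero
    intro i _
    apply Finset.prod_eq_zero (Finset.mem_univ 0)
    have h1 := hF i 0
    rw [ht0] at h1
    simpa using h1
  set f := ∑ i, ∏ j, F i j with hf
  obtain ⟨κ, _, _, a, c, s, hcard, hac, hdis, hs, hs0⟩ := exists_pert f hne
  let F' : Fin (K + 1) → Fin (m + 1) → ℝ[X] := Fin.cons (Fin.cons (C s) (fun _ => 1)) F
  have hF' : ∀ i j, (F' i j).support.card ≤ t := by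
    intro i j
    refine Fin.cases ?_ (fun i => ?_) i
    · refine Fin.cases ?_ (fun j => ?_) j
      · simp only [F', Fin.cons_zero]
        exact (card_support_C_le_one' _).trans ht
      · simp only [F', Fin.cons_zero, Fin.cons_succ]
        rw [← C_1]
        exact (card_support_C_le_one' _).trans ht
    · simp only [F', Fin.cons_succ]
      exact hF i j
  have hsum : ∑ i, ∏ j, F' i j = f + C s := by
    rw [Fin.sum_univ_succ]
    simp only [F', Fin.cons_zero, Fin.cons_succ]
    rw [Fin.prod_univ_succ]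
    simp only [Fin.cons_zero, Fin.cons_succ, Finset.prod_const_one, mul_one]
    rw [← hf, add_comm]
  have heval : ∀ x, (f + C s).eval x = ∑ i, ∏ j, (F' i j).eval x := by
    intro x
    rw [← hsum, eval_finsetSum]
    apply Finset.sum_congr rfl
    intro i _
    rw [eval_prod]
  -- index equivalences
  have hcE : Fintype.card (Fin (2 ^ m * (K + 1))) =
      Fintype.card (Fin (K + 1) × {S : Finset (Fin (m + 1)) // Even S.card}) := by
    rw [Fintype.card_prod, (card_even m).1, Fintype.card_fin, Fintype.card_fin, mul_comm]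
  have hcO : Fintype.card (Fin (2 ^ m * (K + 1))) =
      Fintype.card (Fin (K + 1) × {S : Finset (Fin (m + 1)) // ¬ Even S.card}) := by
    rw [Fintype.card_prod, (card_even m).2, Fintype.card_fin, Fintype.card_fin, mul_comm]
  let eE := Fintype.equivOfCardEq hcE
  let eO := Fintype.equivOfCardEq hcO
  have hpos : 0 < 2 ^ m * (K + 1) := by positivity
  let a0 : Fin (2 ^ m * (K + 1)) := ⟨0, hpos⟩
  let G : ℝ → Fin 2 → Fin (2 ^ m * (K + 1)) → ℝ[X] := fun ε =>
    ![fun i => 1 + C ε * ∑ j ∈ (eO i).2.1, F' (eO i).1 j,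
      fun i => if i = a0 then -(1 + C ε * ∑ j ∈ (eE i).2.1, F' (eE i).1 j)
        else 1 + C ε * ∑ j ∈ (eE i).2.1, F' (eE i).1 j]
  have hGeval : ∀ ε x, (∑ i, ∏ j, G ε i j).eval x =
      (∏ i, ∏ S : {S : Finset (Fin (m + 1)) // ¬ Even S.card},
        (1 + ε * ∑ j ∈ S.1, (F' i j).eval x)) -
      ∏ i, ∏ S : {S : Finset (Fin (m + 1)) // Even S.card},
        (1 + ε * ∑ j ∈ S.1, (F' i j).eval x) := by
    intro ε x
    rw [Fin.sum_univ_two, eval_add, sub_eq_add_neg]
    congr 1
    · simp only [G, Matrix.cons_val_zero]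
      rw [eval_prod, ← Fintype.prod_prod_type']
      apply Fintype.prod_equiv eO
      intro i
      simp [eval_finsetSum]
    · simp only [G, Matrix.cons_val_one, Matrix.cons_val_fin_one]
      have h1 : ∏ i : Fin (2 ^ m * (K + 1)), (if i = a0 then
          -(1 + C ε * ∑ j ∈ (eE i).2.1, F' (eE i).1 j)
          else 1 + C ε * ∑ j ∈ (eE i).2.1, F' (eE i).1 j) =
          -∏ i : Fin (2 ^ m * (K + 1)), (1 + C ε * ∑ j ∈ (eE i).2.1, F' (eE i).1 j) := by
        have h2 : ∀ i : Fin (2 ^ m * (K + 1)), (if i = a0 then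
          -(1 + C ε * ∑ j ∈ (eE i).2.1, F' (eE i).1 j)
          else 1 + C ε * ∑ j ∈ (eE i).2.1, F' (eE i).1 j) =
            (if i = a0 then (-1 : ℝ[X]) else 1) *
              (1 + C ε * ∑ j ∈ (eE i).2.1, F' (eE i).1 j) := by
          intro i
          split_ifs <;> ring
        rw [Finset.prod_congr rfl (fun i _ => h2 i), Finset.prod_mul_distrib,
          Finset.prod_ite_eq' Finset.univ a0, if_pos (Finset.mem_univ _), neg_one_mul]
      rw [h1, eval_neg, eval_prod, ← Fintype.prod_prod_type']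
      congr 1
      apply Fintype.prod_equiv eE
      intro i
      simp [eval_finsetSum]
  -- choose ε
  have hkey : ∀ x, (f + C s).eval x ≠ 0 → ∀ᶠ ε : ℝ in 𝓝[>] 0,
      0 < (f + C s).eval x * (∑ i, ∏ j, G ε i j).eval x := by
    intro x hx
    simp only [hGeval]
    rw [heval] at hx ⊢
    exact sign_key (Nat.succ_pos m) (fun i j => (F' i j).eval x) hx
  have hne_a : ∀ i, (f + C s).eval (a i) ≠ 0 := fun i h => by
    have := hs i
    rw [h, zero_mul] at this
    exact lt_irrefl _ this
  have hne_c : ∀ i, (f + C s).eval (c i) ≠ 0 := fun i h => by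
    have := hs i
    rw [h, mul_zero] at this
    exact lt_irrefl _ this
  obtain ⟨x0, hx0⟩ : ∃ x, (f + C s).eval x ≠ 0 := by
    by_contra hcon
    push Not at hcon
    exact hs0 (Polynomial.funext (fun x => by rw [hcon x, eval_zero]))
  have hev1 := hkey x0 hx0
  have hev2 : ∀ᶠ ε : ℝ in 𝓝[>] 0, ∀ i, 0 < (f + C s).eval (a i) * (∑ i, ∏ j, G ε i j).eval (a i) :=
    eventually_all.mpr fun i => hkey _ (hne_a i)
  have hev3 : ∀ᶠ ε : ℝ in 𝓝[>] 0, ∀ i, 0 < (f + C s).eval (c i) * (∑ i, ∏ j, G ε i j).eval (c i) :=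
    eventually_all.mpr fun i => hkey _ (hne_c i)
  obtain ⟨ε, h1, h2, h3⟩ := (hev1.and (hev2.and hev3)).exists
  refine ⟨G ε, ?_, ?_, ?_⟩
  · intro i j
    refine Fin.cases ?_ (fun i => ?_) i
    · simp only [G, Matrix.cons_val_zero]
      exact card_support_factor t _ (hF' _) _ ε
    · have hi : i = 0 := Subsingleton.elim _ _
      subst hi
      simp only [G, Fin.succ_zero_eq_one, Matrix.cons_val_one, Matrix.cons_val_fin_one]
      split_ifs
      · rw [support_neg]
        exact card_support_factor t _ (hF' _) _ ε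
      · exact card_support_factor t _ (hF' _) _ ε
  · intro h0
    rw [h0, eval_zero, mul_zero] at h1
    exact lt_irrefl _ h1
  · refine hcard.trans (Pool.Agent.H746R4.Tau.card_le_roots _ a c hac hdis ?_)
    intro i
    have h4 := mul_pos (h2 i) (h3 i)
    have h5 := hs i
    set u := (f + C s).eval (a i)
    set v := (f + C s).eval (c i)
    set u' := (∑ i, ∏ j, G ε i j).eval (a i)
    set v' := (∑ i, ∏ j, G ε i j).eval (c i)
    have h6 : u * u' * (v * v') = (u * v) * (u' * v') := by ring
    rw [h6] at h4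
    by_contra hcon
    push Not at hcon
    have := mul_nonpos_of_nonpos_of_nonneg h5.le hcon
    linarith

/-- Two products with a superlinear number of real roots. -/
theorem family₁ (s e : ℕ) (hs : 1 ≤ s) (he : 1 ≤ e) :
    ∃ G : Fin 2 → Fin (2 * (192 * s * e ^ 3 + 1)) → ℝ[X],
      (∀ i j, (G i j).support.card ≤ 2 * (2 * e ^ 2 + 4 * s ^ 2 * e) + 1) ∧
      (∑ i, ∏ j, G i j) ≠ 0 ∧
      64 * s ^ 3 * e ^ 5 ≤ (∑ i, ∏ j, G i j).roots.toFinset.card := by
  obtain ⟨F, hF, hroots⟩ := Pool.Agent.H746R4.Tau.family₂ s e hs he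
  have hne : (∑ i, ∏ j, F i j) ≠ 0 := by
    intro h0
    rw [h0, roots_zero, Multiset.toFinset_zero, Finset.card_empty] at hroots
    have : 0 < 64 * s ^ 3 * e ^ 5 := by positivity
    omega
  obtain ⟨G, h1, h2, h3⟩ := transfer (192 * s * e ^ 3) 1 (2 * e ^ 2 + 4 * s ^ 2 * e) F (by
    intro i j
    fin_cases j
    · exact (hF i).1.trans (Nat.le_add_right _ _)
    · exact (hF i).2.trans (Nat.le_add_left _ _)) hne
  exact ⟨G, h1, h2, hroots.trans h3⟩

end Pool.Agent.TH673.Tau2
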